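import Pool.Agent.helper16.EXT.Spec3T

/-!
# Project EXT (MP_561ff4_al), block I: row ISL (`σ^ℓ = 1`)
-/

set_option autoImplicit false

open Finset

namespace Pool.Agent.EXT

open Pool.Agent.EXC

theorem ISL_step {K : Type} [Field K] {τ : K ≃+* K} {x : MulAut (GF τ)} {σ : K0 τ ≃+* K0 τ} {a : Lm C6 K}
    (ha : ExS τ a) (hx : RAF τ x)
    (hσ : ∀ a b : Lm C6 K, ExS τ a → ExS τ b → ImF τ x a b → ∃ c, c ≠ 0 ∧ SLF τ x σ a b c) (k : ℕ) :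
    ∃ (b : Lm C6 K) (c : K0 τ), ExS τ b ∧ c ≠ 0 ∧ ∀ (u : K0 τ) (h : GF τ),
      IsF τ a (u : K) (h : Equiv.Perm (LT τ)) →
      IsF τ b ((c * (⇑σ)^[k] u : K0 τ) : K) (((x ^ k) h : GF τ) : Equiv.Perm (LT τ)) := by
  induction k with
  | zero =>
    refine ⟨a, 1, ha, one_ne_zero, fun u h hu => ?_⟩
    rw [one_mul, Function.iterate_zero_apply, pow_zero]
    exact hu
  | succ k ih =>
    obtain ⟨b, c, hb, hc, hk⟩ := ih
    obtain ⟨b', hb', him⟩ := hx b hb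
    obtain ⟨d, hd, hsl⟩ := hσ b b' hb hb' him
    refine ⟨b', d * σ c, hb', mul_ne_zero hd ?_, fun u h hu => ?_⟩
    · exact fun h0 => hc ((map_eq_zero σ).1 h0)
    · have h1 := hsl _ _ (hk u h hu)
      rw [map_mul, ← mul_assoc] at h1
      rw [Function.iterate_succ_apply', pow_succ', MulAut.mul_apply]
      exact h1

theorem ISL (hESF : ESF_stmt) (hGFX : GFX_stmt) (hUNF : UNF_stmt) (hRTF : RTF_stmt) : ISL_stmt := by
  intro K _ τ hτ x hx σ hσ ℓ hℓ u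
  have hth : LR th := hRTF.2.2.2.2.2.2.2.2.2.2.2.2.2.1
  have hβ := (f_NBR 6 C6 1 th ![0, 2, 3, 4, 5] f_DE6.2).1
  obtain ⟨-, -, hfact, -⟩ := f_EXF 6 C6 K hβ
  obtain ⟨hexE, hex⟩ := hESF K τ hτ
  have ha : ExS τ (E C6 th : Lm C6 K) := hexE th hth
  obtain ⟨b, c, hb, hc, hk⟩ := ISL_step ha hx hσ ℓ
  rw [hℓ] at hk
  obtain ⟨-, hGa⟩ := hGFX K τ hτ
  obtain ⟨hall, -, -, -, -⟩ := hGa _ ha
  obtain ⟨-, -, -, hinj, -⟩ := hGa b hb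
  have hXb := (hfact b (hex b hb).1).1
  have h4 := (f_XAU 6 C6 K b hXb).2.2.2
  -- the parameter `1`
  obtain ⟨h₁, hm₁, hx₁⟩ := hall 1 (map_one τ)
  have e1 : IsF τ b (c : K) h₁ := by
    have h := hk 1 ⟨h₁, hm₁⟩ hx₁
    rw [Function.iterate_fixed (map_one σ) ℓ, mul_one] at h
    exact h
  have e2 : (E C6 th : Lm C6 K) = (c : K) • b := hUNF K τ hτ _ _ _ _ ha hb hx₁ e1
  -- the parameter `u`
  obtain ⟨h₂, hm₂, hx₂⟩ := hall (u : K) u.2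
  have e3 : IsF τ b ((c * (⇑σ)^[ℓ] u : K0 τ) : K) h₂ := hk u ⟨h₂, hm₂⟩ hx₂
  have e4 : IsF τ b ((c * u : K0 τ) : K) h₂ := by
    intro v
    rw [hx₂ v, e2, (h4 (c : K)).2 (u : K) v]
    rfl
  have e5 : ((c * (⇑σ)^[ℓ] u : K0 τ) : K) = ((c * u : K0 τ) : K) := hinj _ _ _ e3 e4
  exact mul_left_cancel₀ hc (Subtype.ext e5)

end Pool.Agent.EXT
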